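import Pool.Agent.SOCat.T11

/-!
The perfect set property for the subsets of `P(lam)` that are definable (in `V`) by a
`Σ_1`-formula of the Levy hierarchy with parameters in `V_lam ∪ {(κ n : n < ω)}`, for a strictly
increasing sequence `(κ n : n < ω)` of cardinals with supremum `lam` each of which is
`γ`-supercompact for every `γ < lam`.
-/

namespace Pool.Agent.Results.MP_62560c_lc.PerfectSupercompact

open SOCat

universe u

theorem result (κ : ℕ → Cardinal.{u}) (hmono : StrictMono κ) (lam : Cardinal.{u})
    (hlam : lam = ⨆ n, κ n) (hsc : ∀ n, ∀ γ < lam.ord, IsSupercompact (κ n) γ)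
    (X : Set (Pow lam.ord)) (hdef : SigmaOneDefSeq (fun n => (κ n).ord) X)
    (hX : Cardinal.lift.{u+1} lam < Cardinal.mk X) :
    ∃ ι : (ℕ → Set.Iio lam.ord) → Pow lam.ord, IsPerfectEmbedding ι ∧ Set.range ι ⊆ X :=
  perfect_of_supercompact κ hmono lam hlam hsc X hdef hX

end Pool.Agent.Results.MP_62560c_lc.PerfectSupercompact
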